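import Pool.Agent.K3h8.SF.Stm2
import Pool.Agent.Y112.SC.Main

/-!
# Brick HL: the trace of the parity projector of a letter
-/

set_option autoImplicit false
set_option linter.unusedSectionVars false
set_option linter.unusedSimpArgs false
set_option backward.isDefEq.respectTransparency false
set_option backward.defeqAttrib.useBackward true

open CategoryTheory Limits MonoidalCategory
open Pool.Agent.Y112.SR Pool.Agent.Y112.KD Pool.Agent.Y112.SC Pool.Agent.R905 Pool.Agent.K3h8.KS
open Pool.Agent.K3h8.SF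
open Pool.Agent.Y116.MT (tr)

namespace Pool.Agent.K3h87.SF

universe v u w

section

variable {C : Type u} [Category.{v} C] [Preadditive C] [Linear ℚ C] [MonoidalCategory C]
  [MonoidalPreadditive C] [MonoidalLinear ℚ C] [SymmetricCategory C]
  [RightRigidCategory C] {K : Type w} [Field K] (R : SuperRealisation C K)

lemma up_add {X : C} (a b : R.H.obj (tp X 1) ⟶ R.H.obj (tp X 1)) (n : ℕ) :
    up R X (a + b) n = up R X a n + up R X b n := by
  induction n with
  | zero => rfl
  | succ n ih =>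
    change bx R (up R X (a + b) n) (𝟙 _) = bx R (up R X a n) (𝟙 _) + bx R (up R X b n) (𝟙 _)
    rw [ih, bx_add_left]

lemma up_smul {X : C} (c : K) (a : R.H.obj (tp X 1) ⟶ R.H.obj (tp X 1)) (n : ℕ) :
    up R X (c • a) n = c • up R X a n := by
  induction n with
  | zero => rfl
  | succ n ih =>
    change bx R (up R X (c • a) n) (𝟙 _) = c • bx R (up R X a n) (𝟙 _)
    rw [ih, bx_smul_left]

lemma up_one {X : C} (n : ℕ) : up R X (𝟙 (R.H.obj (tp X 1))) n = 𝟙 _ := by
  induction n with
  | zero => rfl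
  | succ n ih =>
    change bx R (up R X (𝟙 (R.H.obj (tp X 1))) n) (𝟙 _) = _
    rw [ih, bx_one]

/-- the weight projectors and the parity operator -/
lemma EE_par (X : C) (n : ℕ) (k : ℤ) :
    EE R X n k ≫ R.par (tp X n) = ((-1 : K) ^ k) • EE R X n k := by
  have hK := R_charZero R
  have h2 : (2 : K) ≠ 0 := two_ne_zero
  have hm : (-1 : K) ≠ 0 := neg_ne_zero.mpr one_ne_zero
  have hpe : pe R X ≫ R.par X = pe R X := by
    rw [pe, Linear.smul_comp, Preadditive.add_comp, Category.id_comp, R.par_sq, add_comm]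
  have hpo : po R X ≫ R.par X = (-1 : K) • po R X := by
    rw [po, Linear.smul_comp, Preadditive.sub_comp, Category.id_comp, R.par_sq, smul_comm]
    congr 1
    rw [neg_smul, one_smul, neg_sub]
  induction n generalizing k with
  | zero =>
    rw [EE_zero]
    split_ifs with h
    · subst h
      have h3 : R.par (tp X 0) = 𝟙 _ := R.par_unit
      rw [h3, Category.comp_id, zpow_zero, one_smul]
    · rw [zero_comp, smul_zero]
  | succ n ih =>
    have h3 : R.par (tp X (n + 1)) = bx R (R.par (tp X n)) (R.par X) := (bx_par R _ _).symm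
    rw [EE_succ, h3, Preadditive.add_comp, bx_comp, bx_comp, ih, ih, hpe, hpo, bx_smul_left,
      bx_smul_left, bx_smul_right, smul_smul, smul_add]
    congr 2
    rw [zpow_sub_one₀ hm]
    have : ((-1 : K))⁻¹ = -1 := by rw [inv_neg, inv_one]
    rw [this, mul_assoc]
    norm_num

/-- the iterated partial traces agree -/
lemma PTn_eq {X : C} (n : ℕ) (y : tp X (n + 1) ⟶ tp X (n + 1)) :
    PTn R X n (R.H.map y) = R.H.map (pt1 n y) := by
  induction n with
  | zero => rfl
  | succ n ih =>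
    change PTn R X n (PT R (R.H.map y)) = R.H.map (pt1 n (ptr y))
    rw [PT_map, ih]

/-- the first letter -/
lemma first_place' {X : C} (m : ℕ) (p q : ℕ)
    (hp : LinearMap.trace K (R.H.obj (tp X 1)) (𝟙 (R.H.obj (tp X 1)) :
      R.H.obj (tp X 1) ⟶ R.H.obj (tp X 1)).hom = p + q)
    (hq : LinearMap.trace K (R.H.obj (tp X 1)) (R.par (tp X 1)).hom = p - q)
    (x : R.H.obj (tp X (m + 1)) ⟶ R.H.obj (tp X (m + 1))) (c : K) (hz : PTn R X m x = c • 𝟙 _) :
    ((p : K) - q) * LinearMap.trace K (R.H.obj (tp X (m + 1)))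
      (up R X (R.par (tp X 1)) m ≫ x ≫ R.par (tp X (m + 1))).hom =
    ((p : K) + q) * LinearMap.trace K (R.H.obj (tp X (m + 1))) (x ≫ R.par (tp X (m + 1))).hom := by
  have t1 := trace_PTn R m (𝟙 (R.H.obj (tp X 1))) x
  have t2 := trace_PTn R m (R.par (tp X 1)) x
  rw [up_one, Category.id_comp, Category.id_comp, hz, Linear.smul_comp, Category.id_comp,
    ModuleCat.hom_smul, map_smul, hq, smul_eq_mul] at t1
  rw [hz, Linear.smul_comp, Category.id_comp, Linear.comp_smul, R.par_sq, ModuleCat.hom_smul,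
    map_smul, hp, smul_eq_mul] at t2
  rw [← t1, ← t2]
  ring

/-- all letters -/
lemma all_places' (hU : UnitQ C) {X : C} (p q : ℕ)
    (hp : LinearMap.trace K (R.H.obj (tp X 1)) (𝟙 (R.H.obj (tp X 1)) :
      R.H.obj (tp X 1) ⟶ R.H.obj (tp X 1)).hom = p + q)
    (hq : LinearMap.trace K (R.H.obj (tp X 1)) (R.par (tp X 1)).hom = p - q)
    {n : ℕ} {a : R.H.obj (tp X n) ⟶ R.H.obj (tp X n)} (ha : Reach R X n a) :
    ∀ (y : tp X n ⟶ tp X n), en y ∈ Algebra.adjoin ℚ {s : End (tp X n) | IsSwap X n s} →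
    ((p : K) - q) * LinearMap.trace K (R.H.obj (tp X n)) (a ≫ R.H.map y ≫ R.par (tp X n)).hom =
    ((p : K) + q) * LinearMap.trace K (R.H.obj (tp X n)) (R.H.map y ≫ R.par (tp X n)).hom := by
  have hK := R_charZero R
  induction ha with
  | first n =>
    intro y hy
    have hs : 𝟙 X ≫ 𝟙 X = 𝟙 X := Category.comp_id _
    have h4 : en (pt1 n y) ∈ Nat' (𝟙 X) 1 := pt1_mem (Pool.Agent.K3h43.SF.t_MONC2 (C := C)) hs
      (tr_one hU X) (tr_one hU X) n y (adjoin_le_nat (𝟙 X) hy)
    obtain ⟨α, β, h5⟩ := Pool.Agent.K3h43.SF.t_MONC3 (C := C) X (𝟙 X) hs (pt1 n y) h4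
    have h6 : pt1 n y = (α + β) • 𝟙 _ := by
      rw [h5, MonoidalCategory.whiskerLeft_id, add_smul]
    refine first_place' R n p q hp hq _ ((α + β : ℚ) : K) ?_
    rw [PTn_eq, h6, R_smul, CategoryTheory.Functor.map_id]
  | conj n a s hs _ ih =>
    intro y hy
    have hs2 : R.H.map s ≫ R.H.map s = 𝟙 _ := by
      rw [← Functor.map_comp, swap_sq hs, CategoryTheory.Functor.map_id]
    have hsm : en s ∈ Algebra.adjoin ℚ {s : End (tp X n) | IsSwap X n s} :=
      Algebra.subset_adjoin hs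
    have hmem : en (s ≫ y ≫ s) ∈ Algebra.adjoin ℚ {s : End (tp X n) | IsSwap X n s} :=
      Subalgebra.mul_mem _ (Subalgebra.mul_mem _ hsm hy) hsm
    have h1 := ih (s ≫ y ≫ s) hmem
    rw [Functor.map_comp, Functor.map_comp] at h1
    have hpar : R.H.map s ≫ R.par (tp X n) = R.par (tp X n) ≫ R.H.map s := R.par_natural s
    have e1 : LinearMap.trace K (R.H.obj (tp X n))
        (a ≫ (R.H.map s ≫ R.H.map y ≫ R.H.map s) ≫ R.par (tp X n)).hom =
        LinearMap.trace K (R.H.obj (tp X n))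
        ((R.H.map s ≫ a ≫ R.H.map s) ≫ R.H.map y ≫ R.par (tp X n)).hom := by
      have f1 : a ≫ (R.H.map s ≫ R.H.map y ≫ R.H.map s) ≫ R.par (tp X n) =
          (a ≫ R.H.map s ≫ R.H.map y ≫ R.par (tp X n)) ≫ R.H.map s := by
        simp only [Category.assoc]
        rw [hpar]
      rw [f1, trace_swap]
      simp only [Category.assoc]
    have e2 : LinearMap.trace K (R.H.obj (tp X n))
        ((R.H.map s ≫ R.H.map y ≫ R.H.map s) ≫ R.par (tp X n)).hom =
        LinearMap.trace K (R.H.obj (tp X n)) (R.H.map y ≫ R.par (tp X n)).hom := by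
      have f1 : (R.H.map s ≫ R.H.map y ≫ R.H.map s) ≫ R.par (tp X n) =
          (R.H.map s ≫ R.H.map y ≫ R.par (tp X n)) ≫ R.H.map s := by
        simp only [Category.assoc]
        rw [hpar]
      rw [f1, trace_swap, ← Category.assoc, hs2, Category.id_comp]
    rw [← e1, ← e2, h1]

/-- all letters, for splittings with a vanishing trace -/
lemma all_zero {X T : C} (m : ℕ) (d : K) (hd : d * d = 1)
    (hno : ∀ (i₁ : T ⟶ tp X (m + 1)) (r₁ : tp X (m + 1) ⟶ T), Spl i₁ r₁ →
      LinearMap.trace K (R.H.obj (tp X (m + 1)))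
        (up R X (𝟙 _ + d • R.par (tp X 1)) m ≫ R.H.map (r₁ ≫ i₁)).hom = 0)
    {n : ℕ} {a : R.H.obj (tp X n) ⟶ R.H.obj (tp X n)} (ha : Reach R X n a) :
    n = m + 1 → ∀ (i₁ : T ⟶ tp X n) (r₁ : tp X n ⟶ T), Spl i₁ r₁ →
    LinearMap.trace K (R.H.obj (tp X n)) (a ≫ R.H.map (r₁ ≫ i₁)).hom =
      -d * LinearMap.trace K (R.H.obj (tp X n)) (R.H.map (r₁ ≫ i₁)).hom := by
  induction ha with
  | first k =>
    intro hn i₁ r₁ h1
    obtain rfl : k = m := by omega
    have h2 := hno i₁ r₁ h1
    rw [up_add, up_one, up_smul, Preadditive.add_comp, Category.id_comp, Linear.smul_comp,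
      ModuleCat.hom_add, map_add, ModuleCat.hom_smul, map_smul, smul_eq_mul] at h2
    have h3 : d * (LinearMap.trace K (R.H.obj (tp X (k + 1))) (R.H.map (r₁ ≫ i₁)).hom +
      d * LinearMap.trace K (R.H.obj (tp X (k + 1)))
        (up R X (R.par (tp X 1)) k ≫ R.H.map (r₁ ≫ i₁)).hom) = 0 := by rw [h2, mul_zero]
    rw [mul_add, ← mul_assoc, hd, one_mul] at h3
    linear_combination h3
  | conj n a s hs _ ih =>
    intro hn i₁ r₁ h1
    have hss : s ≫ s = 𝟙 _ := swap_sq hs
    have hsm : en s ∈ Algebra.adjoin ℚ {s : End (tp X n) | IsSwap X n s} :=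
      Algebra.subset_adjoin hs
    have h2 : Spl (i₁ ≫ s) (s ≫ r₁) := by
      refine ⟨?_, ?_⟩
      · rw [Category.assoc, reassoc_of% hss]
        exact h1.1
      · have e1 : (s ≫ r₁) ≫ i₁ ≫ s = s ≫ (r₁ ≫ i₁) ≫ s := by simp only [Category.assoc]
        rw [e1]
        exact Subalgebra.mul_mem _ (Subalgebra.mul_mem _ hsm h1.2) hsm
    have h3 := ih hn (i₁ ≫ s) (s ≫ r₁) h2
    have e1 : R.H.map ((s ≫ r₁) ≫ i₁ ≫ s) = R.H.map s ≫ R.H.map (r₁ ≫ i₁) ≫ R.H.map s := by
      rw [← Functor.map_comp, ← Functor.map_comp]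
      simp only [Category.assoc]
    have hs2 : R.H.map s ≫ R.H.map s = 𝟙 _ := by
      rw [← Functor.map_comp, hss, CategoryTheory.Functor.map_id]
    rw [e1] at h3
    have e2 : LinearMap.trace K (R.H.obj (tp X n))
        (a ≫ R.H.map s ≫ R.H.map (r₁ ≫ i₁) ≫ R.H.map s).hom =
        LinearMap.trace K (R.H.obj (tp X n))
        ((R.H.map s ≫ a ≫ R.H.map s) ≫ R.H.map (r₁ ≫ i₁)).hom := by
      have f1 : a ≫ R.H.map s ≫ R.H.map (r₁ ≫ i₁) ≫ R.H.map s =
          (a ≫ R.H.map s ≫ R.H.map (r₁ ≫ i₁)) ≫ R.H.map s := by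
        simp only [Category.assoc]
      rw [f1, trace_swap]
      simp only [Category.assoc]
    have e3 : LinearMap.trace K (R.H.obj (tp X n))
        (R.H.map s ≫ R.H.map (r₁ ≫ i₁) ≫ R.H.map s).hom =
        LinearMap.trace K (R.H.obj (tp X n)) (R.H.map (r₁ ≫ i₁)).hom := by
      have f1 : R.H.map s ≫ R.H.map (r₁ ≫ i₁) ≫ R.H.map s =
          (R.H.map s ≫ R.H.map (r₁ ≫ i₁)) ≫ R.H.map s := by
        simp only [Category.assoc]
      rw [f1, trace_swap, ← Category.assoc, hs2, Category.id_comp]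
    rw [e2, e3] at h3
    exact h3

end

section

variable (C : Type u) [Category.{v} C] [Preadditive C] [Linear ℚ C] [MonoidalCategory C]
  [MonoidalPreadditive C] [MonoidalLinear ℚ C] [SymmetricCategory C] [RightRigidCategory C]

theorem t_HLs : HLs.{v, u, w} C := by
  intro K _ R hU X T m i r hS hT d hd hpar
  have hK := R_charZero R
  have h2 : (2 : K) ≠ 0 := two_ne_zero
  by_contra hcon
  have hno : ∀ (i₁ : T ⟶ tp X (m + 1)) (r₁ : tp X (m + 1) ⟶ T), Spl i₁ r₁ →
      LinearMap.trace K (R.H.obj (tp X (m + 1)))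
        (up R X (𝟙 _ + (d : K) • R.par (tp X 1)) m ≫ R.H.map (r₁ ≫ i₁)).hom = 0 := by
    intro i₁ r₁ h1
    by_contra h3
    exact hcon ⟨i₁, r₁, h1, h3⟩
  have hdd : (d : K) * d = 1 := by
    rcases hd with rfl | rfl
    · norm_num
    · norm_num
  obtain ⟨hir, he⟩ := id hS
  set e : tp X (m + 1) ⟶ tp X (m + 1) := r ≫ i with hedef
  have he' : e ∈ Algebra.adjoin ℚ {s : End (tp X (m + 1)) | IsSwap X (m + 1) s} := he
  obtain ⟨p, q, hp, hq, hp0, hq0⟩ := exists_pq R hK (tp X 1)
  -- transport of the parity of the first power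
  have htr : ∀ c : K, R.par (tp X 1) = c • 𝟙 _ → R.par X = c • 𝟙 _ := by
    intro c hc
    have h1 := R.par_natural (λ_ X).inv
    have h3 : R.H.map (λ_ X).inv ≫ R.par (tp X 1) = R.par X ≫ R.H.map (λ_ X).inv := h1
    rw [hc, Linear.comp_smul] at h3
    have h4 := congrArg (fun z => z ≫ R.H.map (λ_ X).hom) h3
    have h5 : R.H.map (λ_ X).inv ≫ R.H.map (λ_ X).hom = 𝟙 _ := by
      rw [← Functor.map_comp, Iso.inv_hom_id, CategoryTheory.Functor.map_id]
    simp only [Linear.smul_comp, Category.assoc] at h4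
    rw [h5, Category.comp_id] at h4
    rw [← h4]
    congr 1
  have hee : e ≫ e = e := by
    rw [hedef, Category.assoc, reassoc_of% hir]
  have hHe : R.H.map e ≫ R.H.map e = R.H.map e := by
    rw [← Functor.map_comp, hee]
  -- the ranks
  have hrk : ∀ k : ℕ, ∃ t : ℕ, LinearMap.trace K (R.H.obj (tp X (m + 1)))
      (EE R X (m + 1) (k : ℤ) ≫ R.H.map e).hom = t := by
    intro k
    have h3 : (EE R X (m + 1) (k : ℤ) ≫ R.H.map e) ≫ (EE R X (m + 1) (k : ℤ) ≫ R.H.map e) =
        EE R X (m + 1) (k : ℤ) ≫ R.H.map e := by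
      have f1 : (EE R X (m + 1) (k : ℤ) ≫ R.H.map e) ≫ (EE R X (m + 1) (k : ℤ) ≫ R.H.map e) =
          EE R X (m + 1) (k : ℤ) ≫ (R.H.map e ≫ EE R X (m + 1) (k : ℤ)) ≫ R.H.map e := by
        simp only [Category.assoc]
      rw [f1, EE_adjoin R he', Category.assoc, hHe, ← Category.assoc, EE_idem R h2]
    obtain ⟨t, ht, -⟩ := exists_rk R _ h3 hK
    exact ⟨t, ht⟩
  choose ρ hρ using hrk
  have hsum : ∀ f : ℕ → K, LinearMap.trace K (R.H.obj (tp X (m + 1)))
      ((∑ k ∈ Finset.range (m + 1 + 1), f k • EE R X (m + 1) (k : ℤ)) ≫ R.H.map e).hom =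
      ∑ k ∈ Finset.range (m + 1 + 1), f k * ρ k := by
    intro f
    have h3 : LinearMap.trace K (R.H.obj (tp X (m + 1)))
      ((∑ k ∈ Finset.range (m + 1 + 1), f k • EE R X (m + 1) (k : ℤ)) ≫ R.H.map e).hom =
      trF R (R.H.map e) (∑ k ∈ Finset.range (m + 1 + 1), f k • EE R X (m + 1) (k : ℤ)) := rfl
    rw [h3, map_sum]
    refine Finset.sum_congr rfl fun k _ => ?_
    change LinearMap.trace K (R.H.obj (tp X (m + 1)))
      ((f k • EE R X (m + 1) (k : ℤ)) ≫ R.H.map e).hom = _
    rw [Linear.smul_comp, ModuleCat.hom_smul, map_smul, hρ, smul_eq_mul]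
  have hparE : ∀ f : ℕ → K,
      (∑ k ∈ Finset.range (m + 1 + 1), f k • EE R X (m + 1) (k : ℤ)) ≫ R.H.map e ≫
        R.par (tp X (m + 1)) =
      (∑ k ∈ Finset.range (m + 1 + 1), (f k * (-1) ^ k) • EE R X (m + 1) (k : ℤ)) ≫ R.H.map e := by
    intro f
    rw [R.par_natural, ← Category.assoc]
    congr 1
    rw [Preadditive.sum_comp]
    refine Finset.sum_congr rfl fun k _ => ?_
    rw [Linear.smul_comp, EE_par, smul_smul, zpow_natCast]
  have t1 : LinearMap.trace K (R.H.obj (tp X (m + 1))) (R.H.map e).hom =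
      ∑ k ∈ Finset.range (m + 1 + 1), (ρ k : K) := by
    have h3 := hsum (fun _ => 1)
    simp only [one_smul, one_mul] at h3
    rwa [EE_one R h2, Category.id_comp] at h3
  have t1' : LinearMap.trace K (R.H.obj (tp X (m + 1))) (R.H.map e ≫ R.par (tp X (m + 1))).hom =
      ∑ k ∈ Finset.range (m + 1 + 1), (-1) ^ k * (ρ k : K) := by
    have h3 := hparE (fun _ => 1)
    simp only [one_smul, one_mul] at h3
    rw [EE_one R h2, Category.id_comp] at h3
    rw [h3, hsum]
  have t2 : LinearMap.trace K (R.H.obj (tp X (m + 1))) (NN R X (m + 1) ≫ R.H.map e).hom =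
      ∑ k ∈ Finset.range (m + 1 + 1), (((m + 1 : ℕ) : K) - 2 * k) * ρ k := by
    rw [NN_eq R h2, hsum]
  have t2' : LinearMap.trace K (R.H.obj (tp X (m + 1)))
      (NN R X (m + 1) ≫ R.H.map e ≫ R.par (tp X (m + 1))).hom =
      ∑ k ∈ Finset.range (m + 1 + 1), ((((m + 1 : ℕ) : K) - 2 * k) * (-1) ^ k) * ρ k := by
    rw [NN_eq R h2, hparE, hsum]
  -- the first relation
  have key1 : LinearMap.trace K (R.H.obj (tp X (m + 1))) (NN R X (m + 1) ≫ R.H.map e).hom =
      ((m + 1 : ℕ) : K) * (-(d : K) *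
        LinearMap.trace K (R.H.obj (tp X (m + 1))) (R.H.map e).hom) := by
    exact NN_val (m + 1) (trF R (R.H.map e)) _
      (fun a ha => all_zero R m (d : K) hdd hno ha rfl i r hS)
  -- the second relation
  have key2 : ((p : K) - q) * LinearMap.trace K (R.H.obj (tp X (m + 1)))
      (NN R X (m + 1) ≫ R.H.map e ≫ R.par (tp X (m + 1))).hom =
      ((m + 1 : ℕ) : K) * (((p : K) + q) * LinearMap.trace K (R.H.obj (tp X (m + 1)))
        (R.H.map e ≫ R.par (tp X (m + 1))).hom) := by
    let φ : (R.H.obj (tp X (m + 1)) ⟶ R.H.obj (tp X (m + 1))) →+ K :=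
      (AddMonoidHom.mulLeft ((p : K) - q)).comp (trF R (R.H.map e ≫ R.par (tp X (m + 1))))
    exact NN_val (m + 1) φ _ (fun a ha => all_places' R hU p q hp hq ha e he)
  rw [t1, t2] at key1
  rw [t1', t2'] at key2
  have hn0 : ((m + 1 : ℕ) : K) ≠ 0 := by exact_mod_cast Nat.succ_ne_zero m
  have hzero : ∀ k ∈ Finset.range (m + 1 + 1), (ρ k : K) = 0 := by
    rcases hd with rfl | rfl
    · -- `d = 1`
      have hz1 : ∑ k ∈ Finset.range (m + 1 + 1), ((m + 1 - k : ℕ) * ρ k : ℕ) = 0 := by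
        have h3 : ((2 * ∑ k ∈ Finset.range (m + 1 + 1), ((m + 1 - k : ℕ) * ρ k : ℕ) : ℕ) : K)
            = 0 := by
          have h4 : ∑ k ∈ Finset.range (m + 1 + 1), (((m + 1 : ℕ) : K) - 2 * k) * ρ k -
              ((m + 1 : ℕ) : K) * (-((1 : ℚ) : K) * ∑ k ∈ Finset.range (m + 1 + 1), (ρ k : K)) = 0 := by
            rw [key1, sub_self]
          rw [← h4]
          push_cast
          rw [Finset.mul_sum, Finset.mul_sum, Finset.mul_sum, ← Finset.sum_sub_distrib]
          refine Finset.sum_congr rfl fun k hk => ?_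
          have hk' : k ≤ m + 1 := by
            have := Finset.mem_range.mp hk
            omega
          rw [Nat.cast_sub hk']
          push_cast
          ring
        have h5 : (2 * ∑ k ∈ Finset.range (m + 1 + 1), ((m + 1 - k : ℕ) * ρ k : ℕ) : ℕ) = 0 := by
          exact_mod_cast h3
        omega
      have hlt : ∀ k, k < m + 1 → ρ k = 0 := by
        intro k hk
        have h3 := (Finset.sum_eq_zero_iff.mp hz1) k (Finset.mem_range.mpr (by omega))
        rcases Nat.mul_eq_zero.mp h3 with h4 | h4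
        · omega
        · exact h4
      have hpne : (p : K) ≠ 0 := by
        intro h
        apply hpar
        have h3 : p = 0 := by exact_mod_cast h
        apply htr
        rw [hp0 h3]
        push_cast
        rw [neg_smul, one_smul]
      have e1 : ∑ k ∈ Finset.range (m + 1 + 1), ((((m + 1 : ℕ) : K) - 2 * k) * (-1) ^ k) * ρ k =
          ((((m + 1 : ℕ) : K) - 2 * ((m + 1 : ℕ) : K)) * (-1) ^ (m + 1)) * ρ (m + 1) := by
        rw [Finset.sum_range_succ, Finset.sum_eq_zero, zero_add]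
        intro k hk
        rw [hlt k (Finset.mem_range.mp hk), Nat.cast_zero, mul_zero]
      have e2 : ∑ k ∈ Finset.range (m + 1 + 1), (-1) ^ k * (ρ k : K) =
          (-1) ^ (m + 1) * (ρ (m + 1) : K) := by
        rw [Finset.sum_range_succ, Finset.sum_eq_zero, zero_add]
        intro k hk
        rw [hlt k (Finset.mem_range.mp hk), Nat.cast_zero, mul_zero]
      rw [e1, e2] at key2
      have h3 : (2 * (p : K)) * ((m + 1 : ℕ) : K) * ((-1) ^ (m + 1) * (ρ (m + 1) : K)) = 0 := by
        linear_combination -key2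
      have h4 : (ρ (m + 1) : K) = 0 := by
        have h5 : (-1 : K) ^ (m + 1) ≠ 0 := pow_ne_zero _ (neg_ne_zero.mpr one_ne_zero)
        rcases mul_eq_zero.mp h3 with h6 | h6
        · exact absurd h6 (mul_ne_zero (mul_ne_zero h2 hpne) hn0)
        · exact (mul_eq_zero.mp h6).resolve_left h5
      intro k hk
      rcases Nat.lt_or_ge k (m + 1) with h5 | h5
      · rw [hlt k h5, Nat.cast_zero]
      · have h6 : k = m + 1 := by
          have := Finset.mem_range.mp hk
          omega
        rw [h6, h4]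
    · -- `d = -1`
      have hz1 : ∑ k ∈ Finset.range (m + 1 + 1), (k * ρ k : ℕ) = 0 := by
        have h3 : ((2 * ∑ k ∈ Finset.range (m + 1 + 1), (k * ρ k : ℕ) : ℕ) : K)
            = 0 := by
          have h4 : ((m + 1 : ℕ) : K) * (-((-1 : ℚ) : K) *
              ∑ k ∈ Finset.range (m + 1 + 1), (ρ k : K)) -
              ∑ k ∈ Finset.range (m + 1 + 1), (((m + 1 : ℕ) : K) - 2 * k) * ρ k = 0 := by
            rw [key1, sub_self]
          rw [← h4]
          push_cast
          rw [Finset.mul_sum, Finset.mul_sum, Finset.mul_sum, ← Finset.sum_sub_distrib]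
          refine Finset.sum_congr rfl fun k _ => ?_
          ring
        have h5 : (2 * ∑ k ∈ Finset.range (m + 1 + 1), (k * ρ k : ℕ) : ℕ) = 0 := by
          exact_mod_cast h3
        omega
      have hlt : ∀ k, 0 < k → k < m + 1 + 1 → ρ k = 0 := by
        intro k hk hk2
        have h3 := (Finset.sum_eq_zero_iff.mp hz1) k (Finset.mem_range.mpr hk2)
        rcases Nat.mul_eq_zero.mp h3 with h4 | h4
        · omega
        · exact h4
      have hqne : (q : K) ≠ 0 := by
        intro h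
        apply hpar
        have h3 : q = 0 := by exact_mod_cast h
        apply htr
        rw [hq0 h3]
        push_cast
        rw [neg_neg, one_smul]
      have e1 : ∑ k ∈ Finset.range (m + 1 + 1), ((((m + 1 : ℕ) : K) - 2 * k) * (-1) ^ k) * ρ k =
          ((m + 1 : ℕ) : K) * ρ 0 := by
        rw [Finset.sum_range_succ', Finset.sum_eq_zero, zero_add]
        · simp
        · intro k hk
          rw [hlt (k + 1) (by omega) (by have := Finset.mem_range.mp hk; omega), Nat.cast_zero,
            mul_zero]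
      have e2 : ∑ k ∈ Finset.range (m + 1 + 1), (-1) ^ k * (ρ k : K) = (ρ 0 : K) := by
        rw [Finset.sum_range_succ', Finset.sum_eq_zero, zero_add]
        · simp
        · intro k hk
          rw [hlt (k + 1) (by omega) (by have := Finset.mem_range.mp hk; omega), Nat.cast_zero,
            mul_zero]
      rw [e1, e2] at key2
      have h3 : (2 * (q : K)) * ((m + 1 : ℕ) : K) * (ρ 0 : K) = 0 := by
        linear_combination -key2
      have h4 : (ρ 0 : K) = 0 := by
        rcases mul_eq_zero.mp h3 with h6 | h6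
        · exact absurd h6 (mul_ne_zero (mul_ne_zero h2 hqne) hn0)
        · exact h6
      intro k hk
      rcases Nat.eq_zero_or_pos k with h5 | h5
      · rw [h5, h4]
      · rw [hlt k h5 (Finset.mem_range.mp hk), Nat.cast_zero]
  -- the contradiction
  have t3 : LinearMap.trace K (R.H.obj (tp X (m + 1))) (R.H.map e).hom = 0 := by
    rw [t1]
    exact Finset.sum_eq_zero hzero
  have hf1 := R.finite T
  have hf2 := R.finite (tp X (m + 1))
  have t4 : LinearMap.trace K (R.H.obj (tp X (m + 1))) (R.H.map e).hom =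
      (Module.finrank K (R.H.obj T) : K) := by
    have h3 : R.H.map e = R.H.map r ≫ R.H.map i := by rw [hedef, Functor.map_comp]
    rw [h3, ModuleCat.hom_comp]
    have h4 := LinearMap.trace_comp_comm' (R := K) (R.H.map r).hom (R.H.map i).hom
    refine h4.trans ?_
    rw [← ModuleCat.hom_comp, ← Functor.map_comp, hir, CategoryTheory.Functor.map_id,
      ModuleCat.hom_id, LinearMap.trace_id]
  rw [t3] at t4
  have h7 := finrank_ne_zero R hT
  exact h7 (by exact_mod_cast t4.symm)

end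

end Pool.Agent.K3h87.SF
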